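import Pool.Agent.Run7.h219.LS.Stm

/-!
LS, piece C (helper835): a good shell (for the project of helper219).
-/

set_option autoImplicit false

open MeasureTheory Set Metric Filter Topology
open scoped ContDiff ENNReal

namespace Run7.h835.LS

open H459R3.NS W221.NS Run7.h219.LS
open Pool.Agent.TH305.DR (SV SS)
open Pool.Agent.W349.MF (pd_congr' pd_congr_ev' cutoff pd_bd cut_sol)

theorem SS_congr (n : ℕ) : ∀ {f g : V → ℝ} {x : V}, f =ᶠ[𝓝 x] g → SS n f x = SS n g x := by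
  induction n with
  | zero =>
      intro f g x h
      show f x ^ 2 = g x ^ 2
      rw [h.eq_of_nhds]
  | succ n ih =>
      intro f g x h
      show ∑ i, SS n (pd i f) x = ∑ i, SS n (pd i g) x
      exact Finset.sum_congr rfl fun i _ => ih (pd_congr_ev' h i)

theorem SV_congr (n : ℕ) {v w : V → V} {x : V} (h : v =ᶠ[𝓝 x] w) : SV n v x = SV n w x := by
  unfold SV
  refine Finset.sum_congr rfl fun i _ => SS_congr n ?_
  filter_upwards [h] with y hy
  rw [hy]

/-- a bounded separated set: a finite maximal separated set -/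
theorem max_sep {A : Set V} {a : ℝ} (ha : 0 < a) {N : ℕ}
    (hN : ∀ S : Finset V, (∀ x ∈ S, x ∈ A) → (∀ x ∈ S, ∀ y ∈ S, x ≠ y → a ≤ ‖x - y‖) →
      S.card ≤ N) :
    ∃ S : Finset V, (∀ x ∈ S, x ∈ A) ∧ (∀ x ∈ S, ∀ y ∈ S, x ≠ y → a ≤ ‖x - y‖) ∧
      ∀ x ∈ A, ∃ y ∈ S, ‖x - y‖ < a := by
  classical
  set P : ℕ → Prop := fun n => ∃ S : Finset V, (∀ x ∈ S, x ∈ A) ∧
    (∀ x ∈ S, ∀ y ∈ S, x ≠ y → a ≤ ‖x - y‖) ∧ S.card = n with hP
  have h0 : P 0 := ⟨∅, by simp, by simp, rfl⟩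
  have hbd : ∀ n, P n → n ≤ N := by
    rintro n ⟨S, h1, h2, rfl⟩
    exact hN S h1 h2
  obtain ⟨S, hS1, hS2, hS3⟩ := Nat.findGreatest_spec (P := P) (Nat.zero_le N) h0
  refine ⟨S, hS1, hS2, fun x hx => ?_⟩
  by_contra hcon
  push Not at hcon
  have hxS : x ∉ S := fun h => by
    have := hcon x h
    rw [sub_self, norm_zero] at this
    linarith
  have h1 : P (S.card + 1) := by
    refine ⟨insert x S, ?_, ?_, Finset.card_insert_of_notMem hxS⟩
    · intro y hy
      rcases Finset.mem_insert.1 hy with h | h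
      · rw [h]; exact hx
      · exact hS1 y h
    · intro y hy z hz hyz
      rcases Finset.mem_insert.1 hy with h | h <;> rcases Finset.mem_insert.1 hz with h' | h'
      · exact absurd (h.trans h'.symm) hyz
      · rw [h]; exact hcon z h'
      · rw [h', norm_sub_rev]; exact hcon y h
      · exact hS2 y h z h' hyz
  have h2 := Nat.le_findGreatest (hbd _ h1) h1
  rw [← hS3] at h2
  omega

/-- The numbers `‖x - cc‖`, for the points of a set with small covering numbers. -/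
theorem avoid {A : Set V} (h : ∃ a : ℝ, 0 < a ∧ ∃ N : ℕ, (N : ℝ) * a < 1 / 32 ∧
      ∀ S : Finset V, (∀ x ∈ S, x ∈ A) → (∀ x ∈ S, ∀ y ∈ S, x ≠ y → a ≤ ‖x - y‖) → S.card ≤ N) :
    ∃ ρ : ℝ, 1 / 8 < ρ ∧ ρ < 1 / 4 ∧ ∀ x ∈ A, ‖x - cc‖ ≠ ρ := by
  obtain ⟨a, ha, N, hNa, hN⟩ := h
  obtain ⟨S, hS1, hS2, hS3⟩ := max_sep ha hN
  by_contra hcon
  push Not at hcon
  have hsub : Ioo (1 / 8 : ℝ) (1 / 4) ⊆ ⋃ y ∈ S, closedBall ‖y - cc‖ a := by
    intro ρ hρ
    obtain ⟨x, hx, hxρ⟩ := hcon ρ hρ.1 hρ.2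
    obtain ⟨y, hy, hxy⟩ := hS3 x hx
    refine mem_iUnion₂.2 ⟨y, hy, ?_⟩
    rw [mem_closedBall, Real.dist_eq, ← hxρ]
    refine (abs_norm_sub_norm_le _ _).trans ?_
    rw [sub_sub_sub_cancel_right]
    exact hxy.le
  have hvol := (measure_mono hsub).trans (measure_biUnion_finset_le (μ := volume) S _)
  rw [Real.volume_Ioo] at hvol
  simp only [Real.volume_closedBall, Finset.sum_const, nsmul_eq_mul] at hvol
  have h1 : (S.card : ℝ≥0∞) * ENNReal.ofReal (2 * a) = ENNReal.ofReal (S.card * (2 * a)) := by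
    rw [ENNReal.ofReal_mul (Nat.cast_nonneg _), ENNReal.ofReal_natCast]
  rw [h1, ENNReal.ofReal_le_ofReal_iff (by positivity)] at hvol
  have h2 : (S.card : ℝ) ≤ N := by exact_mod_cast hN S hS1 hS2
  have h3 : (S.card : ℝ) * (2 * a) ≤ N * (2 * a) := by gcongr
  linarith

/-- From a good sphere to a good shell. -/
theorem shell_of_sphere {T ρ : ℝ} {u : ℝ → V → V} (hT : 0 < T) (h1 : 1 / 8 < ρ) (h2 : ρ < 1 / 4)
    (hρ : ∀ x : V, ‖x - cc‖ = ρ → ¬ BadD T u x) : ∃ κ δ M : ℝ, Shell T ρ κ δ M u := by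
  set f : ℝ → V → ℝ := fun t y => SV 0 (u t) y + SV 1 (u t) y + SV 2 (u t) y with hf
  have hcomp : IsCompact (sphere cc ρ) := isCompact_sphere cc ρ
  have hP : ∃ U : Set V, IsOpen U ∧ sphere cc ρ ⊆ U ∧ ∃ δ > 0, ∃ M : ℝ,
      ∀ t ∈ Ioo (T - δ) T, ∀ y ∈ U, f t y ≤ M := by
    refine hcomp.induction_on (p := fun A => ∃ U : Set V, IsOpen U ∧ A ⊆ U ∧ ∃ δ > 0, ∃ M : ℝ,
      ∀ t ∈ Ioo (T - δ) T, ∀ y ∈ U, f t y ≤ M) ?_ ?_ ?_ ?_
    · exact ⟨∅, isOpen_empty, le_rfl, 1, one_pos, 0, fun t _ y hy => absurd hy (notMem_empty y)⟩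
    · rintro A B hAB ⟨U, hU, hBU, h⟩
      exact ⟨U, hU, hAB.trans hBU, h⟩
    · rintro A B ⟨U, hU, hAU, δ, hδ, M, hM⟩ ⟨U', hU', hBU', δ', hδ', M', hM'⟩
      refine ⟨U ∪ U', hU.union hU', union_subset_union hAU hBU', min δ δ', lt_min hδ hδ',
        max M M', ?_⟩
      intro t ht y hy
      rcases hy with hy | hy
      · exact (hM t ⟨by linarith [ht.1, min_le_left δ δ'], ht.2⟩ y hy).trans (le_max_left _ _)
      · exact (hM' t ⟨by linarith [ht.1, min_le_right δ δ'], ht.2⟩ y hy).trans (le_max_right _ _)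
    · intro x hx
      have hx' := hρ x (by rwa [mem_sphere, dist_eq_norm] at hx)
      unfold BadD at hx'
      push Not at hx'
      obtain ⟨δ, hδ, M, hM⟩ := hx'
      exact ⟨ball x δ, mem_nhdsWithin_of_mem_nhds (ball_mem_nhds x hδ), ball x δ, isOpen_ball,
        le_rfl, δ, hδ, M, fun t ht y hy => hM t ht y hy⟩
  obtain ⟨U, hU, hsU, δ, hδ, M, hM⟩ := hP
  obtain ⟨κ₀, hκ₀, hth⟩ := hcomp.exists_cthickening_subset_open hU hsU
  set κ := min κ₀ (min ((ρ - 1 / 8) / 2) ((1 / 4 - ρ) / 2)) with hκ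
  have k1 : κ ≤ κ₀ := min_le_left _ _
  have k2 : κ ≤ (ρ - 1 / 8) / 2 := (min_le_right _ _).trans (min_le_left _ _)
  have k3 : κ ≤ (1 / 4 - ρ) / 2 := (min_le_right _ _).trans (min_le_right _ _)
  have k0 : 0 < κ := lt_min hκ₀ (lt_min (by linarith) (by linarith))
  refine ⟨κ, min δ (T / 2), M, by linarith, by linarith, k0, lt_min hδ (by linarith),
    (min_le_right _ _).trans_lt (by linarith), fun t ht y hy => ?_⟩
  refine hM t ⟨by linarith [ht.1, min_le_left δ (T / 2)], ht.2⟩ y (hth ?_)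
  have hy' := abs_le.1 hy
  have hn : 0 < ‖y - cc‖ := by linarith
  set x : V := cc + (ρ / ‖y - cc‖) • (y - cc) with hx
  have hxs : x ∈ sphere cc ρ := by
    rw [mem_sphere, dist_eq_norm, hx, add_sub_cancel_left, norm_smul, Real.norm_eq_abs,
      abs_of_pos (div_pos (by linarith) hn)]
    field_simp
  have hxy : dist y x ≤ κ := by
    rw [dist_eq_norm]
    have e : y - x = ((‖y - cc‖ - ρ) / ‖y - cc‖) • (y - cc) := by
      rw [hx, sub_div, div_self hn.ne', sub_smul, one_smul]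
      abel
    rw [e, norm_smul, Real.norm_eq_abs, abs_div, abs_of_pos hn, div_mul_cancel₀ _ hn.ne']
    exact hy
  exact mem_cthickening_of_dist_le y x κ₀ _ hxs (hxy.trans k1)

theorem t_SHELL (h : S_BAD) : S_SHELL := by
  obtain ⟨C, hC, h⟩ := h
  intro T E Ω u p hT hE hS hK hfin
  obtain ⟨ζ, δ, hδ, hζ, hc, hts, h01, h1, hOΩ⟩ := cutoff (isCompact_closedBall cc (1 / 4)) hS.openO hK
  obtain ⟨B, hB0, hB⟩ := pd_bd hζ hc
  set K : Set V := closedBall cc (1 / 4) with hKdef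
  set O : Set V := thickening δ K with hO
  have hOo : IsOpen O := isOpen_thickening
  have hL := cut_sol hE hS hζ hc hts h01 hOo hOΩ h1 hB0 hB
  set κ : ℝ := 2 * B * E with hκ
  have hκ0 : 0 ≤ κ := by positivity
  have heq : ∀ t, ∀ y ∈ O, (fun x => ζ x • u t x) =ᶠ[𝓝 y] u t := by
    intro t y hy
    filter_upwards [hOo.mem_nhds hy] with z hz
    rw [h1 z hz, one_smul]
  -- small radii
  have c1 : Continuous fun r : ℝ => 2 * r ^ 2 := by fun_prop
  have c2 : Continuous fun r : ℝ => C * κ * √r := by fun_prop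
  have c3 : Continuous fun r : ℝ => C * (r + E * √r) := by fun_prop
  have l1 : ∀ᶠ r : ℝ in 𝓝 0, 2 * r ^ 2 < T := by
    have := c1.tendsto 0
    simp only [mul_zero, ne_eq, OfNat.ofNat_ne_zero, not_false_eq_true, zero_pow] at this
    exact this.eventually_lt_const hT
  have l2 : ∀ᶠ r : ℝ in 𝓝 0, C * κ * √r < 1 := by
    have := c2.tendsto 0
    simp only [mul_zero, Real.sqrt_zero] at this
    exact this.eventually_lt_const one_pos
  have l3 : ∀ᶠ r : ℝ in 𝓝 0, C * (r + E * √r) < δ := by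
    have := c3.tendsto 0
    simp only [mul_zero, Real.sqrt_zero, add_zero] at this
    exact this.eventually_lt_const hδ
  -- the dissipation
  set F : ℝ → ℝ≥0∞ := fun t => ∫⁻ y in Ω, ENNReal.ofReal (gsq (u t) y) with hF
  have l4 : ∀ᶠ r : ℝ in 𝓝 0, ENNReal.ofReal C * ∫⁻ t in Ioo (T - 2 * r ^ 2) T, F t
      < ENNReal.ofReal (1 / 32) := by
    have t1 : Tendsto ((volume.restrict (Ioo 0 T)) ∘ fun r : ℝ => Ioo (T - 2 * r ^ 2) T) (𝓝 0)
        (𝓝 0) := by
      have t2 : Tendsto (fun r : ℝ => ENNReal.ofReal (2 * r ^ 2)) (𝓝 0) (𝓝 0) := by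
        have := (ENNReal.continuous_ofReal.comp c1).tendsto 0
        simp only [Function.comp_def, ne_eq, OfNat.ofNat_ne_zero, not_false_eq_true, zero_pow,
          mul_zero, ENNReal.ofReal_zero] at this
        exact this
      refine tendsto_of_tendsto_of_tendsto_of_le_of_le tendsto_const_nhds t2 (fun _ => zero_le)
        fun r => ?_
      refine (Measure.restrict_apply_le _ _).trans ?_
      rw [Real.volume_Ioo]
      apply le_of_eq
      congr 1
      ring
    have t3 := tendsto_setLIntegral_zero (μ := volume.restrict (Ioo 0 T)) hfin t1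
    have t4 : Tendsto (fun r : ℝ => ENNReal.ofReal C *
        ∫⁻ t in Ioo (T - 2 * r ^ 2) T, F t ∂(volume.restrict (Ioo 0 T))) (𝓝 0) (𝓝 0) := by
      have := ENNReal.Tendsto.const_mul (a := ENNReal.ofReal C) t3 (Or.inr ENNReal.ofReal_ne_top)
      simpa using this
    have t5 := t4.eventually_lt_const (show (0 : ℝ≥0∞) < ENNReal.ofReal (1 / 32) by simp)
    filter_upwards [t5, l1] with r hr hr1
    rwa [Measure.restrict_restrict measurableSet_Ioo, inter_eq_self_of_subset_left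
      (Ioo_subset_Ioo (by linarith) le_rfl)] at hr
  obtain ⟨r₀, hr₀, hr⟩ := Metric.eventually_nhds_iff.1 (l1.and (l2.and (l3.and l4)))
  set r := r₀ / 2 with hrdef
  have hr0 : 0 < r := by positivity
  obtain ⟨m1, m2, m3, m4⟩ := hr (show dist r 0 < r₀ by
    rw [Real.dist_eq, sub_zero, abs_of_pos hr0]; linarith)
  have hgs : ∀ τ, ∫⁻ y in O, ENNReal.ofReal (gsq (fun x => ζ x • u τ x) y) ≤ F τ := by
    intro τ
    have hg : ∀ y ∈ O, gsq (fun x => ζ x • u τ x) y = gsq (u τ) y := by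
      intro y hy
      unfold gsq
      refine Finset.sum_congr rfl fun i _ => Finset.sum_congr rfl fun j _ => ?_
      have h2 : (fun y => (ζ y • u τ y) i) =ᶠ[𝓝 y] fun y => u τ y i := by
        filter_upwards [heq τ y hy] with z hz
        rw [hz]
      rw [pd_congr' h2 j]
    have h3 : ∫⁻ y in O, ENNReal.ofReal (gsq (fun x => ζ x • u τ x) y) =
        ∫⁻ y in O, ENNReal.ofReal (gsq (u τ) y) :=
      setLIntegral_congr_fun hOo.measurableSet fun y hy => by
        simp only [hg y hy]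
    rw [h3]
    exact lintegral_mono_set hOΩ
  -- the bad points
  obtain ⟨ρ, hρ1, hρ2, hρ⟩ := avoid (A := {x | x ∈ K ∧ BadD T u x})
    ⟨r / 4, by positivity, ⌊1 / 32 / r⌋₊, by
      have h2 := Nat.floor_le (show (0 : ℝ) ≤ 1 / 32 / r by positivity)
      calc (⌊1 / 32 / r⌋₊ : ℝ) * (r / 4) ≤ (1 / 32 / r) * (r / 4) := by gcongr
        _ = 1 / 128 := by field_simp; norm_num
        _ < _ := by norm_num, by
      intro S hSK hsep
      have hbad : ∀ x ∈ S, BadD T (fun t x => ζ x • u t x) x := by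
        intro x hx ε hε M
        have hxO : x ∈ O := self_subset_thickening hδ K (hSK x hx).1
        obtain ⟨ρ, hρ, hρO⟩ := Metric.isOpen_iff.1 hOo x hxO
        obtain ⟨t, ht, y, hy, hM⟩ := (hSK x hx).2 (min ε ρ) (lt_min hε hρ) M
        refine ⟨t, ⟨by linarith [ht.1, min_le_left ε ρ], ht.2⟩, y,
          ball_subset_ball (min_le_left _ _) hy, ?_⟩
        have hyO : y ∈ O := hρO (ball_subset_ball (min_le_right _ _) hy)
        rw [SV_congr 0 (heq t y hyO), SV_congr 1 (heq t y hyO), SV_congr 2 (heq t y hyO)]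
        exact hM
      have key := h T κ E O _ _ hκ0 hE hL r hr0 m1 m2.le S hbad
        (fun x hx => (ball_subset_ball m3.le).trans (ball_subset_thickening (hSK x hx).1 δ)) hsep
      have key2 : ENNReal.ofReal (S.card * r) < ENNReal.ofReal (1 / 32) := by
        refine (key.trans ?_).trans_lt m4
        exact mul_le_mul_right (lintegral_mono fun τ => hgs τ) _
      rw [ENNReal.ofReal_lt_ofReal_iff (by norm_num)] at key2
      apply Nat.le_floor
      rw [le_div_iff₀ hr0]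
      exact key2.le⟩
  obtain ⟨κ', δ', M, hsh⟩ := shell_of_sphere (u := u) hT hρ1 hρ2 (fun x hx hb => by
    refine hρ x ⟨?_, hb⟩ hx
    rw [hKdef, mem_closedBall, dist_eq_norm, hx]
    exact hρ2.le)
  exact ⟨ρ, κ', δ', M, hsh⟩

end Run7.h835.LS
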